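import Pool.Agent.Helper51.REC.Goals2

/-!
# Project REC: packet G_GAU (Gauss sums)
-/

set_option autoImplicit false

namespace Pool.Agent.Helper5.REC

open NumberField Module IsDedekindDomain Pool.Agent.Helper51.RP Pool.Agent.Helper42.PP
open Pool.Agent.Helper51.REC

/-- Powers with exponents in `ZMod p`. -/
theorem pow_val_add {R : Type*} [Monoid R] {p : ℕ} [NeZero p] {e : R} (he : e ^ p = 1)
    (a b : ZMod p) : e ^ (a + b).val = e ^ a.val * e ^ b.val := by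
  rw [ZMod.val_add, ← pow_eq_pow_mod _ he, pow_add]

/-- The homomorphism `a ↦ e^(-χ(a))`. -/
noncomputable def uh {G : Type*} [CommGroup G] {p ℓ : ℕ} [NeZero p] (e : G) (he : e ^ p = 1)
    (χ : (ZMod ℓ)ˣ →* Multiplicative (ZMod p)) : (ZMod ℓ)ˣ →* G where
  toFun a := e ^ (-(χ a).toAdd : ZMod p).val
  map_one' := by simp
  map_mul' a b := by
    rw [← pow_val_add he]
    congr 2
    rw [map_mul, toAdd_mul]
    ring

theorem uh_apply {G : Type*} [CommGroup G] {p ℓ : ℕ} [NeZero p] (e : G) (he : e ^ p = 1)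
    (χ : (ZMod ℓ)ˣ →* Multiplicative (ZMod p)) (a : (ZMod ℓ)ˣ) :
    uh e he χ a = e ^ (-(χ a).toAdd : ZMod p).val := rfl

/-- A surjective character. -/
theorem exists_chi {p ℓ : ℕ} (hℓ : ℓ.Prime) (h : p ∣ ℓ - 1) :
    ∃ χ : (ZMod ℓ)ˣ →* Multiplicative (ZMod p), Function.Surjective χ := by
  have := Fact.mk hℓ
  have hc : Nat.card (ZMod ℓ)ˣ = ℓ - 1 := by rw [Nat.card_eq_fintype_card, ZMod.card_units]
  have h' : p ∣ Nat.card (ZMod ℓ)ˣ := by rw [hc]; exact h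
  let f : Multiplicative (ZMod (Nat.card (ZMod ℓ)ˣ)) ≃* (ZMod ℓ)ˣ := zmodCyclicMulEquiv inferInstance
  refine ⟨(AddMonoidHom.toMultiplicative (ZMod.castHom h' (ZMod p)).toAddMonoidHom).comp
    f.symm.toMonoidHom, ?_⟩
  intro y
  obtain ⟨x, hx⟩ := ZMod.castHom_surjective h' y.toAdd
  refine ⟨f (Multiplicative.ofAdd x), ?_⟩
  simp only [MonoidHom.comp_apply, MulEquiv.toMonoidHom_eq_coe, MonoidHom.coe_coe,
    MulEquiv.symm_apply_apply]
  exact congrArg Multiplicative.ofAdd hx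

section gauss

variable {R : Type*} [CommRing R] {ℓ : ℕ} [Fact ℓ.Prime] (X : MulChar (ZMod ℓ) R) {ξ : R}
  (hξ : ξ ^ ℓ = 1)

/-- The action of an automorphism on the Gauss sum. -/
theorem map_gauss {S : Type*} [CommRing S] (τ ι : R →+* S) (hτ : ∀ a, τ (X a) = ι (X a)) (b : ZMod ℓ)
    (hb : τ ξ = ι ξ ^ b.val) : τ (gaussSum X (AddChar.zmodChar ℓ hξ)) =
      ι (gaussSum X ((AddChar.zmodChar ℓ hξ).mulShift b)) := by
  unfold gaussSum
  rw [map_sum, map_sum]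
  refine Finset.sum_congr rfl fun a _ => ?_
  rw [map_mul, map_mul, hτ, AddChar.mulShift_apply, AddChar.zmodChar_apply]
  congr 1
  have h1 : b * a = ((b.val * a.val : ℕ) : ZMod ℓ) := by simp
  rw [h1, AddChar.zmodChar_apply', map_pow, hb, map_pow, pow_mul]

/-- The Frobenius congruence. -/
theorem frob_gauss {k : Type*} [CommRing k] (r f : ℕ) [Fact r.Prime] [CharP k r] (φ : R →+* k)
    (hX : ∀ a, X a ^ r ^ f = X a) (b : ZMod ℓ) (hb : b = (r ^ f : ℕ)) :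
    φ (gaussSum X (AddChar.zmodChar ℓ hξ)) ^ r ^ f =
      φ (gaussSum X ((AddChar.zmodChar ℓ hξ).mulShift b)) := by
  unfold gaussSum
  rw [map_sum, map_sum, sum_pow_char_pow]
  refine Finset.sum_congr rfl fun a _ => ?_
  rw [map_mul, map_mul, mul_pow, ← map_pow, hX, AddChar.mulShift_apply, ← map_pow]
  congr 2
  rw [hb, ← nsmul_eq_mul, AddChar.map_nsmul_eq_pow]

end gauss

/-- `W.valuation` of an integral element. -/
theorem val_one_iff {F : Type} [Field F] [NumberField F] (W : HeightOneSpectrum (𝓞 F)) (x : 𝓞 F) :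
    W.valuation F (x : F) = 1 ↔ x ∉ W.asIdeal := by
  rw [← not_iff_not, not_not]
  rw [← HeightOneSpectrum.valuation_lt_one_iff_mem (K := F)]
  exact ⟨fun h => lt_of_le_of_ne (W.valuation_le_one x) h, fun h => ne_of_lt h⟩

theorem g_gau (h1 : K_BAS) : G_GAU := by
  intro p hp F _ _ ε hε ℓ hℓ hd
  obtain ⟨χ, hχ⟩ := exists_chi hℓ hd
  have := Fact.mk hℓ
  have : NeZero p := ⟨hp.1.ne_zero⟩
  have : NeZero (ℓ : F) := ⟨by exact_mod_cast hℓ.ne_zero⟩
  let E := CyclotomicField ℓ F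
  have : NumberField E := IsCyclotomicExtension.numberField {ℓ} F E
  have : FiniteDimensional F E := IsCyclotomicExtension.finiteDimensional {ℓ} F E
  have : IsGalois F E := IsCyclotomicExtension.isGalois {ℓ} F E
  have hξ : IsPrimitiveRoot (IsCyclotomicExtension.zeta ℓ F E) ℓ :=
    IsCyclotomicExtension.zeta_spec ℓ F E
  set ξ : 𝓞 E := hξ.toInteger with hξd
  have hξ1 : IsPrimitiveRoot ξ ℓ := hξ.toInteger_isPrimitiveRoot
  have hξ2 : ξ ^ ℓ = 1 := hξ1.pow_eq_one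
  set e0 : 𝓞 F := hε.toInteger with he0
  have he1 : IsPrimitiveRoot e0 p := hε.toInteger_isPrimitiveRoot
  set e : 𝓞 E := algebraMap (𝓞 F) (𝓞 E) e0 with hed
  have hinj : Function.Injective (algebraMap (𝓞 F) (𝓞 E)) :=
    FaithfulSMul.algebraMap_injective _ _
  have he2 : IsPrimitiveRoot e p := he1.map_of_injective hinj
  have he3 : e ^ p = 1 := he2.pow_eq_one
  obtain ⟨eu, heu⟩ := he2.isUnit hp.1.ne_zero
  have heu1 : eu ^ p = 1 := Units.ext (by rw [Units.val_pow_eq_pow_val, heu, he3, Units.val_one])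
  let X : MulChar (ZMod ℓ) (𝓞 E) := MulChar.ofUnitHom (uh eu heu1 χ)
  have hX : ∀ a : (ZMod ℓ)ˣ, X a = e ^ (-(χ a).toAdd : ZMod p).val := by
    intro a
    rw [MulChar.ofUnitHom_coe, uh_apply, Units.val_pow_eq_pow_val, heu]
  have hXE : ∀ a : ZMod ℓ, ∃ y : 𝓞 F, X a = algebraMap (𝓞 F) (𝓞 E) y := by
    intro a
    by_cases ha : IsUnit a
    · obtain ⟨u, rfl⟩ := ha
      exact ⟨e0 ^ (-(χ u).toAdd : ZMod p).val, by rw [hX, map_pow]⟩
    · exact ⟨0, by rw [map_zero]; exact X.map_nonunit ha⟩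
  have hXp : ∀ a : (ZMod ℓ)ˣ, X a ^ p = 1 := by
    intro a
    rw [hX, ← pow_mul, mul_comm, pow_mul, he3, one_pow]
  have hX1 : X ≠ 1 := by
    intro h0
    obtain ⟨a, ha⟩ := hχ (Multiplicative.ofAdd 1)
    have h2 := hX a
    rw [h0, MulChar.one_apply_coe, ha] at h2
    have h3 := (he2.pow_eq_one_iff_dvd _).1 h2.symm
    have h4 : (-(1 : ZMod p)) = 0 := by
      rw [← ZMod.val_eq_zero]
      exact Nat.eq_zero_of_dvd_of_lt h3 (ZMod.val_lt _)
    exact one_ne_zero (neg_eq_zero.1 h4)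
  set ψ := AddChar.zmodChar ℓ hξ2 with hψ
  have hψ1 : ψ.IsPrimitive := AddChar.zmodChar_primitive_of_primitive_root ℓ hξ1
  set g : 𝓞 E := gaussSum X ψ with hg
  set g' : 𝓞 E := gaussSum X⁻¹ ψ⁻¹ with hg'
  have hgg : g * g' = (ℓ : 𝓞 E) := by
    have := gaussSum_mul_gaussSum_eq_card hX1 hψ1
    rw [ZMod.card] at this
    exact this
  have hg0 : g ≠ 0 := by
    intro h0
    rw [h0, zero_mul] at hgg
    exact hℓ.ne_zero (by exact_mod_cast hgg.symm)
  -- the shift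
  have hsh : ∀ b : (ZMod ℓ)ˣ, gaussSum X (ψ.mulShift b) = e ^ (χ b).toAdd.val * g := by
    intro b
    have h2 := gaussSum_mulShift X ψ b
    have h3 : e ^ (χ b).toAdd.val * X b = 1 := by
      rw [hX, ← pow_val_add he3, add_neg_cancel, ZMod.val_zero, pow_zero]
    rw [hg, ← h2, ← mul_assoc, h3, one_mul]
  -- the p-th power is fixed
  have hfix : ∀ τ : E ≃ₐ[F] E, τ ((g : E) ^ p) = (g : E) ^ p := by
    intro τ
    obtain ⟨b, hb⟩ : ∃ b : (ZMod ℓ)ˣ, τ (ξ : E) = (ξ : E) ^ (b : ZMod ℓ).val := by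
      have h2 : IsPrimitiveRoot (τ (ξ : E)) ℓ := hξ.map_of_injective τ.injective
      obtain ⟨i, hi, hco, h3⟩ := hξ.isPrimitiveRoot_iff.1 h2
      refine ⟨ZMod.unitOfCoprime i hco, ?_⟩
      rw [ZMod.coe_unitOfCoprime, ZMod.val_natCast_of_lt hi]
      exact h3.symm
    have h4 : τ (g : E) = ((gaussSum X (ψ.mulShift b) : 𝓞 E) : E) := by
      refine map_gauss X hξ2 ((τ : E →+* E).comp (algebraMap (𝓞 E) E)) (algebraMap (𝓞 E) E) ?_ b hb
      intro a
      obtain ⟨y, hy⟩ := hXE a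
      rw [hy]
      show τ (algebraMap (𝓞 E) E (algebraMap (𝓞 F) (𝓞 E) y)) = algebraMap (𝓞 E) E (algebraMap (𝓞 F) (𝓞 E) y)
      rw [← IsScalarTower.algebraMap_apply, IsScalarTower.algebraMap_apply (𝓞 F) F E]
      exact τ.commutes _
    rw [map_pow, h4, hsh b, ← map_pow, ← map_pow (algebraMap (𝓞 E) E) g, mul_pow]
    congr 1
    rw [← pow_mul, mul_comm _ p, pow_mul, he3, one_pow, one_mul]
  obtain ⟨c, hc⟩ := (IsGalois.mem_range_algebraMap_iff_fixed (F := F) ((g : E) ^ p)).2 hfix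
  have hcint : IsIntegral ℤ c := by
    have h2 : IsIntegral ℤ (algebraMap F E c) := by
      rw [hc, ← map_pow]
      exact RingOfIntegers.isIntegral_coe _
    exact (isIntegral_algebraMap_iff (algebraMap F E).injective).1 h2
  set c0 : 𝓞 F := ⟨c, hcint⟩ with hc0
  have hc1 : algebraMap (𝓞 F) (𝓞 E) c0 = g ^ p := by
    apply RingOfIntegers.ext
    have h2 : (algebraMap (𝓞 E) E) (g ^ p) = (g : E) ^ p := map_pow _ _ _
    refine Eq.trans ?_ (hc.trans h2.symm)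
    rfl
  have hcne : c ≠ 0 := by
    intro h0
    rw [h0, map_zero] at hc
    exact pow_ne_zero p (by exact_mod_cast hg0) hc.symm
  have key : ∀ W : HeightOneSpectrum (𝓞 F), W.valuation F (ℓ : F) = 1 →
      ∃ w : HeightOneSpectrum (𝓞 E), w.asIdeal.comap (algebraMap (𝓞 F) (𝓞 E)) = W.asIdeal ∧
        g ∉ w.asIdeal := by
    intro W hW
    obtain ⟨P, hP, hP2⟩ := Ideal.exists_maximal_ideal_liesOver_of_isIntegral (S := 𝓞 E) W.asIdeal
    refine ⟨⟨P, hP.isPrime, Ideal.ne_bot_of_liesOver_of_ne_bot W.ne_bot P⟩, hP2.over.symm, ?_⟩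
    intro h0
    have h2 : (ℓ : 𝓞 E) ∈ P := by
      rw [← hgg]
      exact P.mul_mem_right _ h0
    have h3 : (ℓ : 𝓞 F) ∈ W.asIdeal := by
      rw [hP2.over, Ideal.mem_comap, map_natCast]
      exact h2
    exact (val_one_iff W (ℓ : 𝓞 F)).1 (by simpa using hW) h3
  have hunit : ∀ W : HeightOneSpectrum (𝓞 F), W.valuation F (ℓ : F) = 1 → W.valuation F c = 1 := by
    intro W hW
    obtain ⟨w, hw, hgw⟩ := key W hW
    refine (val_one_iff W c0).2 ?_
    rw [← hw, Ideal.mem_comap, hc1]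
    exact fun h0 => hgw (w.isPrime.mem_of_pow_mem _ h0)
  refine ⟨χ, Units.mk0 c hcne, hχ, ⟨hunit, ?_⟩⟩
  intro W hWp hWl b hb
  obtain ⟨w, hw, hgw⟩ := key W hWl
  obtain ⟨hdv, -, h3, -⟩ := h1 p F ε hε W hWp
  have hcW := hunit W hWl
  have hord : ordv W c = 0 := by
    unfold ordv
    rw [hcW]
    simp
  refine ((h3 (Units.mk0 c hcne) (by rw [Units.val_mk0, hord]; exact dvd_zero _) _).1 ?_).symm
  refine ⟨1, ?_, ?_⟩
  · simpa using hcW
  -- the congruence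
  set q := Ideal.absNorm W.asIdeal with hq
  have := W.isMaximal
  have := w.isMaximal
  let : Field (𝓞 F ⧸ W.asIdeal) := Ideal.Quotient.field _
  let : Field (𝓞 E ⧸ w.asIdeal) := Ideal.Quotient.field _
  have hqc : q = Nat.card (𝓞 F ⧸ W.asIdeal) := rfl
  have hq0 : q ≠ 0 := by
    rw [hq, Ne, Ideal.absNorm_eq_zero_iff]
    exact W.ne_bot
  have : Finite (𝓞 F ⧸ W.asIdeal) := Nat.finite_of_card_ne_zero (by rw [← hqc]; exact hq0)
  have := Fintype.ofFinite (𝓞 F ⧸ W.asIdeal)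
  obtain ⟨r, hr⟩ := CharP.exists (𝓞 F ⧸ W.asIdeal)
  obtain ⟨f, hrp, hf⟩ := FiniteField.card (𝓞 F ⧸ W.asIdeal) r
  have := Fact.mk hrp
  have hqr : q = r ^ (f : ℕ) := by rw [hqc, Nat.card_eq_fintype_card, hf]
  have hr1 : (r : 𝓞 F) ∈ W.asIdeal := by
    rw [← Ideal.Quotient.eq_zero_iff_mem, map_natCast]
    exact CharP.cast_eq_zero _ r
  have hr2 : ((r : ℕ) : 𝓞 E ⧸ w.asIdeal) = 0 := by
    rw [← hw, Ideal.mem_comap, map_natCast, ← Ideal.Quotient.eq_zero_iff_mem, map_natCast] at hr1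
    exact hr1
  have : CharP (𝓞 E ⧸ w.asIdeal) r := (CharP.charP_iff_prime_eq_zero hrp).2 hr2
  obtain ⟨m, hm⟩ := hdv
  have hq1 : q = p * m + 1 := by omega
  have hXq : ∀ a, X a ^ r ^ (f : ℕ) = X a := by
    intro a
    rw [← hqr]
    by_cases ha : IsUnit a
    · obtain ⟨u, rfl⟩ := ha
      rw [hq1, pow_succ, pow_mul, hXp, one_pow, one_mul]
    · rw [X.map_nonunit ha, zero_pow hq0]
  have hfr := frob_gauss X hξ2 r f (Ideal.Quotient.mk w.asIdeal) hXq b (by rw [hb, hqr])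
  rw [← hqr, hsh b, map_mul, hq1, pow_succ] at hfr
  have hgne : Ideal.Quotient.mk w.asIdeal g ≠ 0 := by
    rw [Ne, Ideal.Quotient.eq_zero_iff_mem]
    exact hgw
  have h5 := mul_right_cancel₀ hgne hfr
  rw [pow_mul, ← map_pow, ← hc1, ← map_pow, ← map_pow, hed, ← map_pow] at h5
  have h6 : c0 ^ m - e0 ^ (χ b).toAdd.val ∈ W.asIdeal := by
    rw [← hw, Ideal.mem_comap, map_sub]
    exact Ideal.Quotient.eq.1 h5
  have h7 := (HeightOneSpectrum.valuation_lt_one_iff_mem (K := F) W _).2 h6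
  have hm' : (q - 1) / p = m := by
    rw [hq1, Nat.add_sub_cancel, Nat.mul_div_cancel_left _ hp.1.pos]
  have h8 : ((c0 ^ m - e0 ^ (χ b).toAdd.val : 𝓞 F) : F) = c ^ m - ε ^ (χ b).toAdd.val := by
    have h9 : algebraMap (𝓞 F) F (c0 ^ m - e0 ^ (χ b).toAdd.val) =
        algebraMap (𝓞 F) F c0 ^ m - algebraMap (𝓞 F) F e0 ^ (χ b).toAdd.val := by
      rw [map_sub, map_pow, map_pow]
    exact h9
  rw [hm', Units.val_one, one_pow, mul_one, Units.val_mk0, ← h8]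
  exact h7

end Pool.Agent.Helper5.REC
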